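import Pool.Agent.UL3.Stmts

/-! # Squad UL3, row EEC: the second moment from above. -/

set_option autoImplicit false

open MeasureTheory Set

namespace Pool.Agent.UL3.H42

theorem int_sq (H lam : ℝ) (hH : H ≠ 0) :
    ∫ x in (0 : ℝ)..H, (1 - lam * x / H) ^ 2 = H * (1 - lam + lam ^ 2 / 3) := by
  have h : ∀ x ∈ Set.uIcc 0 H, HasDerivAt
      (fun x : ℝ => x - lam / H * x ^ 2 + lam ^ 2 / (3 * H ^ 2) * x ^ 3)
      ((1 - lam * x / H) ^ 2) x := by
    intro x _
    have h1 := ((hasDerivAt_id x).sub ((hasDerivAt_pow 2 x).const_mul (lam / H))).add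
      ((hasDerivAt_pow 3 x).const_mul (lam ^ 2 / (3 * H ^ 2)))
    refine h1.congr_deriv ?_
    push_cast
    field_simp
    ring
  rw [intervalIntegral.integral_eq_sub_of_hasDerivAt h (by
    apply Continuous.intervalIntegrable; fun_prop)]
  field_simp
  ring

theorem int_xsq (H lam : ℝ) (hH : H ≠ 0) :
    ∫ x in (0 : ℝ)..H, x ^ 2 * (1 - lam * x / H) ^ 2 =
      H ^ 3 * (1 / 3 - lam / 2 + lam ^ 2 / 5) := by
  have h : ∀ x ∈ Set.uIcc 0 H, HasDerivAt
      (fun x : ℝ => 1 / 3 * x ^ 3 - lam / (2 * H) * x ^ 4 + lam ^ 2 / (5 * H ^ 2) * x ^ 5)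
      (x ^ 2 * (1 - lam * x / H) ^ 2) x := by
    intro x _
    have h1 := (((hasDerivAt_pow 3 x).const_mul (1 / 3 : ℝ)).sub
      ((hasDerivAt_pow 4 x).const_mul (lam / (2 * H)))).add
      ((hasDerivAt_pow 5 x).const_mul (lam ^ 2 / (5 * H ^ 2)))
    refine h1.congr_deriv ?_
    push_cast
    field_simp
    ring
  rw [intervalIntegral.integral_eq_sub_of_hasDerivAt h (by
    apply Continuous.intervalIntegrable; fun_prop)]
  field_simp
  ring

theorem eec : EecStmt := by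
  intro H G hG
  have hH : 3 / 4 ≤ H := hG.le
  have hH0 : 0 < H := by linarith
  have hHn : H ≠ 0 := hH0.ne'
  have h0m : (0 : ℝ) ∈ Icc 0 H := ⟨le_refl _, hH0.le⟩
  have hHm : H ∈ Icc 0 H := ⟨hH0.le, le_refl _⟩
  -- integrability
  have hI : IntervalIntegrable (fun x => G x ^ 2) volume 0 H := by
    by_contra h
    have := hG.mass
    rw [intervalIntegral.integral_undef h] at this
    norm_num at this
  have hI2 : IntervalIntegrable (fun x => x ^ 2 * G x ^ 2) volume 0 H :=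
    hI.continuousOn_mul (by fun_prop)
  -- a lower bound
  have hlow : ∀ x ∈ Icc 0 H, 1 - x / H ≤ G x := by
    intro x hx
    have h1 := hG.cc.2 h0m hHm
      (show 0 ≤ 1 - x / H by rw [sub_nonneg, div_le_one hH0]; exact hx.2)
      (show 0 ≤ x / H from div_nonneg hx.1 hH0.le) (by ring)
    have h2 : (1 - x / H) • (0 : ℝ) + (x / H) • H = x := by
      simp only [smul_eq_mul]
      field_simp
      ring
    rw [h2, hG.zero] at h1
    simp only [smul_eq_mul, mul_one] at h1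
    have h3 : 0 ≤ x / H * G H := mul_nonneg (div_nonneg hx.1 hH0.le) (hG.rng H hHm).1
    linarith
  have hH2 : H ≤ 3 / 2 := by
    have h1 : ∫ x in (0 : ℝ)..H, (1 - x / H) ^ 2 ≤ ∫ x in (0 : ℝ)..H, G x ^ 2 := by
      apply intervalIntegral.integral_mono_on hH0.le (by
        apply Continuous.intervalIntegrable; fun_prop) hI
      intro x hx
      apply pow_le_pow_left₀ _ (hlow x hx)
      rw [sub_nonneg, div_le_one hH0]
      exact hx.2
    have h2 : ∫ x in (0 : ℝ)..H, (1 - x / H) ^ 2 = H / 3 := by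
      have h3 := int_sq H 1 hHn
      simp only [one_mul] at h3
      rw [h3]
      ring
    rw [h2, hG.mass] at h1
    linarith
  obtain ⟨m, hm⟩ : ∃ m, m = 1 / (2 * H) := ⟨_, rfl⟩
  have hmH : m * (2 * H) = 1 := by rw [hm]; field_simp
  have hm1 : m ≤ 2 / 3 := by nlinarith
  have hm2 : 1 / 3 ≤ m := by nlinarith
  obtain ⟨r, hr⟩ : ∃ r, r = Real.sqrt (12 * m - 3) := ⟨_, rfl⟩
  have hr2 : r ^ 2 = 12 * m - 3 := by rw [hr]; exact Real.sq_sqrt (by linarith)
  have hr0 : 0 ≤ r := by rw [hr]; exact Real.sqrt_nonneg _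
  have hr1 : 1 ≤ r := by nlinarith
  have hr3 : r ≤ 223608 / 100000 := by nlinarith
  obtain ⟨lam, hlam⟩ : ∃ lam, lam = (3 - r) / 2 := ⟨_, rfl⟩
  have hl1 : lam ≤ 1 := by rw [hlam]; linarith
  have hl2 : 38196 / 100000 ≤ lam := by rw [hlam]; linarith
  have hlm : 1 - lam + lam ^ 2 / 3 = m := by rw [hlam]; nlinarith
  have hint1 : ∫ x in (0 : ℝ)..H, (1 - lam * x / H) ^ 2 = 1 / 2 := by
    rw [int_sq H lam hHn, hlm]
    linarith
  have hint2 := int_xsq H lam hHn
  have hl0 : ∀ x ∈ Icc 0 H, 0 ≤ 1 - lam * x / H := by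
    intro x hx
    rw [sub_nonneg, div_le_one hH0]
    nlinarith [hx.1, hx.2]
  -- the crossing point
  obtain ⟨S, hS⟩ : ∃ S, S = {x | x ∈ Icc 0 H ∧ 1 - lam * x / H ≤ G x} := ⟨_, rfl⟩
  have hS0 : (0 : ℝ) ∈ S := by
    rw [hS]
    refine ⟨h0m, ?_⟩
    rw [hG.zero]
    simp
  have hSb : BddAbove S := ⟨H, fun x hx => by rw [hS] at hx; exact hx.1.2⟩
  obtain ⟨c, hc⟩ : ∃ c, c = sSup S := ⟨_, rfl⟩
  have hc0 : 0 ≤ c := by rw [hc]; exact le_csSup hSb hS0
  have hlt : ∀ x ∈ Icc 0 H, x < c → 1 - lam * x / H ≤ G x := by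
    intro x hx hxc
    rw [hc] at hxc
    obtain ⟨y, hy, hxy⟩ := exists_lt_of_lt_csSup ⟨0, hS0⟩ hxc
    rw [hS] at hy
    have hy0 : 0 < y := lt_of_le_of_lt hx.1 hxy
    have h1 := hG.cc.2 h0m hy.1
      (show 0 ≤ 1 - x / y by rw [sub_nonneg, div_le_one hy0]; exact hxy.le)
      (show 0 ≤ x / y from div_nonneg hx.1 hy0.le) (by ring)
    have h2 : (1 - x / y) • (0 : ℝ) + (x / y) • y = x := by
      simp only [smul_eq_mul]
      field_simp
      ring
    rw [h2, hG.zero] at h1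
    simp only [smul_eq_mul, mul_one] at h1
    have h3 : x / y * (1 - lam * y / H) ≤ x / y * G y :=
      mul_le_mul_of_nonneg_left hy.2 (div_nonneg hx.1 hy0.le)
    have h4 : 1 - x / y + x / y * (1 - lam * y / H) = 1 - lam * x / H := by
      field_simp
      ring
    linarith
  have hgt : ∀ x ∈ Icc 0 H, c < x → G x ≤ 1 - lam * x / H := by
    intro x hx hxc
    by_contra h
    have h1 : x ∈ S := by rw [hS]; exact ⟨hx, (not_le.mp h).le⟩
    have h2 := le_csSup hSb h1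
    rw [← hc] at h2
    linarith
  have hpt : ∀ x ∈ Icc 0 H, x ^ 2 * G x ^ 2 ≤
      x ^ 2 * (1 - lam * x / H) ^ 2 + c ^ 2 * (G x ^ 2 - (1 - lam * x / H) ^ 2) := by
    intro x hx
    have h1 := hl0 x hx
    have h2 := (hG.rng x hx).1
    rcases lt_trichotomy x c with h | h | h
    · have h3 := hlt x hx h
      have h4 : (1 - lam * x / H) ^ 2 ≤ G x ^ 2 := pow_le_pow_left₀ h1 h3 2
      have h5 : x ^ 2 ≤ c ^ 2 := pow_le_pow_left₀ hx.1 h.le 2
      nlinarith
    · rw [h]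
      apply le_of_eq
      ring
    · have h3 := hgt x hx h
      have h4 : G x ^ 2 ≤ (1 - lam * x / H) ^ 2 := pow_le_pow_left₀ h2 h3 2
      have h5 : c ^ 2 ≤ x ^ 2 := pow_le_pow_left₀ hc0 h.le 2
      nlinarith
  have hc1 : IntervalIntegrable (fun x : ℝ => (1 - lam * x / H) ^ 2) volume 0 H := by
    apply Continuous.intervalIntegrable; fun_prop
  have hc2 : IntervalIntegrable (fun x : ℝ => x ^ 2 * (1 - lam * x / H) ^ 2) volume 0 H := by
    apply Continuous.intervalIntegrable; fun_prop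
  have hmono : ∫ x in (0 : ℝ)..H, x ^ 2 * G x ^ 2 ≤ ∫ x in (0 : ℝ)..H,
      (x ^ 2 * (1 - lam * x / H) ^ 2 + c ^ 2 * (G x ^ 2 - (1 - lam * x / H) ^ 2)) :=
    intervalIntegral.integral_mono_on hH0.le hI2 (hc2.add ((hI.sub hc1).const_mul _)) hpt
  rw [intervalIntegral.integral_add hc2 ((hI.sub hc1).const_mul _),
    intervalIntegral.integral_const_mul, intervalIntegral.integral_sub hI hc1, hG.mass, hint1,
    hint2, sub_self, mul_zero, add_zero] at hmono
  have hpoly : 1 / 3 - lam / 2 + lam ^ 2 / 5 ≤ 25767 / 100000 * m := by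
    rw [← hlm]
    nlinarith [mul_nonneg (sub_nonneg.mpr hl2) (sub_nonneg.mpr hl1)]
  have h5 : H ^ 3 * (1 / 3 - lam / 2 + lam ^ 2 / 5) ≤ H ^ 3 * (25767 / 100000 * m) :=
    mul_le_mul_of_nonneg_left hpoly (by positivity)
  have h6 : H ^ 3 * (25767 / 100000 * m) = 25767 / 200000 * H ^ 2 := by
    have : H ^ 3 * (25767 / 100000 * m) = 25767 / 200000 * H ^ 2 * (m * (2 * H)) := by ring
    rw [this, hmH, mul_one]
  have h7 : 25767 / 100000 * H ^ 2 ≤ H ^ 2 / (197 / 100) ^ 2 := by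
    rw [le_div_iff₀ (by norm_num)]
    nlinarith [sq_nonneg H]
  linarith

end Pool.Agent.UL3.H42
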